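import Mathlib
import Pool.Agent.Helper68.DS.Final
import Pool.Agent.Helper68.DS.Explicit
import Pool.Agent.Helper68.DS.Neg

set_option autoImplicit false

/-!
Read-once programs over a finite monoid `M`: hitting them can be reduced to hitting combinatorial
rectangles by a bounded number of splices if and only if `M` is in the class `DS` (all regular
`J`-classes are subsemigroups). For the monoids in `DS` this gives explicit hitting sets of
polynomial size in `n / ε`.
-/

namespace Pool.Agent.Results.MP_92893d_lc.DSMonoids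

section monoids

variable {M : Type} [Monoid M]

/-- `x` lies in the two-sided ideal `M y M` generated by `y`. -/
def JLe (x y : M) : Prop := ∃ u v, x = u * y * v

/-- `x` and `y` generate the same two-sided ideal (they are in the same `J`-class). -/
def JEquiv (x y : M) : Prop := JLe x y ∧ JLe y x

/-- `x` is a regular element of the monoid. -/
def Regular (x : M) : Prop := ∃ z, x * z * x = x

/-- The class `DS`: every regular `J`-class of `M` is a subsemigroup. -/
def IsDS (M : Type) [Monoid M] : Prop :=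
  ∀ x y : M, Regular x → JEquiv x y → JEquiv (x * y) x

/-- The `L`-class of `x`: the elements which generate the same left ideal. -/
def LClass (x : M) : Set M := {z | (∃ u, z = u * x) ∧ ∃ v, x = v * z}

/-- The `J`-height of `M` is at most `h`: every strict chain of `J`-classes has at most `h`
members. -/
def HeightLe (M : Type) [Monoid M] (h : ℕ) : Prop :=
  ∀ y : Fin (h + 1) → M, ¬ ∀ i j, i < j → JLe (y i) (y j) ∧ ¬ JLe (y j) (y i)

end monoids

section programs

variable {M S : Type} [Monoid M] {n : ℕ}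

/-- A read-once program of length `n` over the monoid `M` with input alphabet `S` is given by its
letters `c i σ` (`i < n`, `σ ∈ S`); its value on the string `x` is the product
`c 0 (x 0) * c 1 (x 1) * ⋯ * c (n - 1) (x (n - 1))`. -/
def value (c : Fin n → S → M) (x : Fin n → S) : M := (List.ofFn fun i => c i (x i)).prod

/-- The probability of the event `P` for a uniformly random string of length `n`. -/
noncomputable def prob [Fintype S] (P : (Fin n → S) → Prop) : ℝ :=
  (Nat.card {x : Fin n → S // P x} : ℝ) / (Fintype.card S : ℝ) ^ n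

/-- `U` hits every combinatorial rectangle `∏ A i` of density at least `δ`. -/
def HitsRectangles [Fintype S] (U : Set (Fin n → S)) (δ : ℝ) : Prop :=
  ∀ A : Fin n → Set S, δ ≤ prob (fun x : Fin n → S => ∀ i, x i ∈ A i) → ∃ u ∈ U, ∀ i, u i ∈ A i

/-- The `κ`-splices of `U`: the set of positions is cut into `κ` consecutive intervals (some of
them may be empty), and a member of `U` is used on each of them. -/
def splices (κ : ℕ) (U : Set (Fin n → S)) : Set (Fin n → S) :=
  {x | ∃ (f : Fin n → Fin κ) (u : Fin κ → Fin n → S), Monotone f ∧ (∀ j, u j ∈ U) ∧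
    ∀ i, x i = u (f i) i}

/-- The `n` bits `Tr (b * a ^ i)`, `i < n`, where `Tr` is the absolute trace of the field with
`2 ^ m` elements (`m ≥ 1`), `p = (a, b)`. -/
noncomputable def bits (m n : ℕ) (p : GaloisField 2 m × GaloisField 2 m) : Fin n → Bool :=
  fun i => decide (Algebra.trace (ZMod 2) (GaloisField 2 m) (p.2 * p.1 ^ (i : ℕ)) = 1)

/-- The number of pieces, for a monoid of `J`-height at most `h` with `L`-classes of at most `ℓ`
elements. -/
def pieces (h ℓ : ℕ) : ℕ := 2 * (2 * ℓ + 4) ^ h

/-- The loss in the density, for a monoid with `b` elements of `J`-height at most `h` and strings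
of length `n`. -/
def loss (b h n : ℕ) : ℕ := (b + 1) * ((n + 1) ^ 2 * (b + 1)) ^ h

end programs

/-- Hitting read-once programs over `M` reduces to hitting combinatorial rectangles by a bounded
number of splices: for every exponent `C` there are `κ` and `K` such that for every alphabet, every
length `n ≥ 2` and every set `U` which hits all rectangles of density at least `n ^ (-K)`, the
`κ`-splices of `U` hit every program of length `n` over `M` with acceptance probability at
least `n ^ (-C)`. -/
def ReducesToRectangles (M : Type) [Monoid M] : Prop :=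
  ∀ C : ℕ, ∃ κ K : ℕ, ∀ (S : Type) [Fintype S] [Nonempty S] (n : ℕ), 2 ≤ n →
    ∀ U : Set (Fin n → S), HitsRectangles U (1 / (n : ℝ) ^ K) →
    ∀ (c : Fin n → S → M) (F : Set M), 1 / (n : ℝ) ^ C ≤ prob (fun x => value c x ∈ F) →
      ∃ x ∈ splices κ U, value c x ∈ F

lemma prob_mono' {S : Type} [Fintype S] {n : ℕ} {δ δ' : ℝ} {U : Set (Fin n → S)} (h : δ ≤ δ')
    (hU : HitsRectangles U δ) : HitsRectangles U δ' := fun A hA => hU A (h.trans hA)

/-- The quantitative form of the reduction. -/
lemma part1 {M : Type} [Monoid M] [Finite M] (hDS : IsDS M) {h ℓ : ℕ} (hh : HeightLe M h)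
    (hℓ : ∀ x : M, (LClass x).ncard ≤ ℓ) {S : Type} [Fintype S] [Nonempty S]
    {n : ℕ} (ε : ℝ) (hε : 0 < ε) (U : Set (Fin n → S))
    (hU : HitsRectangles U (ε / loss (Nat.card M) h n)) (c : Fin n → S → M) (F : Set M)
    (hF : ε ≤ prob (fun x : Fin n → S => value c x ∈ F)) :
    ∃ x ∈ splices (pieces h ℓ) U, value c x ∈ F := by
  refine Helper68.DS.hits_splices (M := M) (S := S) hDS hh hℓ ε hε U ?_ c F hF
  have h1 : (loss (Nat.card M) h n : ℝ) =
      ((Nat.card M : ℝ) + 1) * (((n : ℝ) + 1) ^ 2 * ((Nat.card M : ℝ) + 1)) ^ h := by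
    rw [loss]
    push_cast
    ring
  rw [← h1]
  exact hU

lemma loss_pos (b h n : ℕ) : (0 : ℝ) < ((loss b h n : ℕ) : ℝ) := by
  have : 0 < loss b h n := by
    unfold loss
    positivity
  exact_mod_cast this

lemma loss_le (b n : ℕ) (hn : 2 ≤ n) : loss b b n ≤ n ^ (b + (4 + b) * b) := by
  have h1 : b + 1 ≤ n ^ b := (Nat.lt_two_pow_self).trans_le (Nat.pow_le_pow_left hn b)
  have h2 : n + 1 ≤ n ^ 2 := by nlinarith
  have h3 : (n + 1) ^ 2 ≤ n ^ 4 := by
    calc (n + 1) ^ 2 ≤ (n ^ 2) ^ 2 := Nat.pow_le_pow_left h2 2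
      _ = n ^ 4 := by rw [← pow_mul]
  calc loss b b n = (b + 1) * ((n + 1) ^ 2 * (b + 1)) ^ b := rfl
    _ ≤ n ^ b * (n ^ 4 * n ^ b) ^ b :=
      Nat.mul_le_mul h1 (Nat.pow_le_pow_left (Nat.mul_le_mul h3 h1) b)
    _ = n ^ (b + (4 + b) * b) := by rw [← pow_add, ← pow_mul, ← pow_add]

/-- **Theorem.** Let `M` be a finite monoid.
(1) `M` is in `DS` if and only if hitting read-once programs over `M` reduces to hitting
combinatorial rectangles by a bounded number of splices.
(2) Quantitatively: let `M` be in `DS` with `b` elements, `J`-height at most `h` and `L`-classes of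
at most `ℓ` elements. If `U` hits every rectangle of density at least `ε / loss b h n`, then the
`pieces h ℓ`-splices of `U` hit every program of length `n` over `M` (with any input alphabet) with
acceptance probability at least `ε`.
(3) If moreover `n * loss b h n < ε * 2 ^ m`, the `pieces h ℓ`-splices of the strings
`Tr (b * a ^ i)`, a set of at most `((n + 1) * 4 ^ m) ^ pieces h ℓ` bit strings, hit every program
of length `n` over `M` which reads bits and has acceptance probability at least `ε`.
(4) If `M` is not in `DS`, then for all `κ` and `K` the reduction fails already for acceptance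
probability `1 / n`. -/
theorem result (M : Type) [Monoid M] [Finite M] :
    (IsDS M ↔ ReducesToRectangles M) ∧
    (IsDS M → ∀ h ℓ : ℕ, HeightLe M h → (∀ x : M, (LClass x).ncard ≤ ℓ) →
      ∀ (S : Type) [Fintype S] [Nonempty S] (n : ℕ) (ε : ℝ), 0 < ε →
      ∀ U : Set (Fin n → S), HitsRectangles U (ε / loss (Nat.card M) h n) →
      ∀ (c : Fin n → S → M) (F : Set M), ε ≤ prob (fun x => value c x ∈ F) →
        ∃ x ∈ splices (pieces h ℓ) U, value c x ∈ F) ∧
    (IsDS M → ∀ h ℓ : ℕ, HeightLe M h → (∀ x : M, (LClass x).ncard ≤ ℓ) →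
      ∀ (n m : ℕ) (ε : ℝ), 1 ≤ m → 0 < ε → (n : ℝ) * loss (Nat.card M) h n < ε * 2 ^ m →
      (splices (pieces h ℓ) (Set.range (bits m n))).ncard ≤ ((n + 1) * 4 ^ m) ^ pieces h ℓ ∧
      ∀ (c : Fin n → Bool → M) (F : Set M), ε ≤ prob (fun x => value c x ∈ F) →
        ∃ x ∈ splices (pieces h ℓ) (Set.range (bits m n)), value c x ∈ F) ∧
    (¬ IsDS M → ∀ κ K : ℕ, ∃ (S : Type) (_ : Fintype S) (_ : Nonempty S) (n : ℕ)
      (U : Set (Fin n → S)) (c : Fin n → S → M) (F : Set M), 2 ≤ n ∧
      HitsRectangles U (1 / (n : ℝ) ^ K) ∧ 1 / (n : ℝ) ≤ prob (fun x => value c x ∈ F) ∧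
      ∀ x ∈ splices κ U, value c x ∉ F) := by
  have hneg : ¬ IsDS M → ∀ κ K : ℕ, ∃ (S : Type) (_ : Fintype S) (_ : Nonempty S) (n : ℕ)
      (U : Set (Fin n → S)) (c : Fin n → S → M) (F : Set M), 2 ≤ n ∧
      HitsRectangles U (1 / (n : ℝ) ^ K) ∧ 1 / (n : ℝ) ≤ prob (fun x => value c x ∈ F) ∧
      ∀ x ∈ splices κ U, value c x ∉ F := by
    intro h κ K
    obtain ⟨L, n, U, c, F, h1, h2, h3, h4⟩ := Helper68.DS.not_hits (M := M) h κ K
    exact ⟨Fin (L + 1), inferInstance, inferInstance, n, U, c, F, h1, h2, h3, h4⟩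
  refine ⟨⟨fun hDS C => ?_, fun hred => ?_⟩, ?_, ?_, hneg⟩
  · refine ⟨pieces (Nat.card M) (Nat.card M),
      C + (Nat.card M + (4 + Nat.card M) * Nat.card M), ?_⟩
    intro S _ _ n hn U hU c F hF
    have hn0 : (0 : ℝ) < n := by exact_mod_cast (by omega : 0 < n)
    refine part1 hDS Helper68.DS.heightLe_card Helper68.DS.lcl_card (1 / (n : ℝ) ^ C)
      (by positivity) U (prob_mono' ?_ hU) c F hF
    rw [div_div, pow_add]
    have h1 : ((loss (Nat.card M) (Nat.card M) n : ℕ) : ℝ) ≤
        (n : ℝ) ^ (Nat.card M + (4 + Nat.card M) * Nat.card M) := by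
      exact_mod_cast loss_le (Nat.card M) n hn
    have h2 := loss_pos (Nat.card M) (Nat.card M) n
    gcongr
  · by_contra hDS
    obtain ⟨κ, K, h⟩ := hred 1
    obtain ⟨S, hS, hS', n, U, c, F, hn, h1, h2, h3⟩ := hneg hDS κ K
    obtain ⟨x, hx, hxF⟩ := h S n hn U h1 c F (by rw [pow_one]; exact h2)
    exact h3 x hx hxF
  · intro hDS h ℓ hh hℓ S _ _ n ε hε U hU c F hF
    exact part1 hDS hh hℓ ε hε U hU c F hF
  · intro hDS h ℓ hh hℓ n m ε hm hε hlt
    refine ⟨?_, fun c F hF => ?_⟩
    · have h1 := Helper68.DS.ncard_splices_le (S := Bool) (κ := pieces h ℓ) (bits m n)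
      have h2 : Nat.card (GaloisField 2 m × GaloisField 2 m) = 4 ^ m := by
        rw [Nat.card_prod, GaloisField.card 2 m (by omega), ← mul_pow]
        norm_num
      rw [h2] at h1
      exact h1
    · refine part1 hDS hh hℓ ε hε _ ?_ c F hF
      refine Helper68.DS.bits_hits m n _ ?_
      rw [div_mul_eq_mul_div, lt_div_iff₀ (loss_pos (Nat.card M) h n)]
      exact hlt

end Pool.Agent.Results.MP_92893d_lc.DSMonoids
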