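import Mathlib
import Pool.Agent.Helper68.EDA.Main
import Pool.Agent.Helper68.EDA.NegCount

set_option autoImplicit false

/-!
Read-once programs over a finite monoid `M`: the strings accepted by the programs with a given
acceptance probability are within a bounded Hamming distance of all strings if and only if the
submonoid of `M` generated by the idempotents is in the class `DA` (its regular elements are
idempotent). Otherwise the distance is at least logarithmic, and almost linear if `M` is aperiodic.
-/

namespace Pool.Agent.Results.MP_92893d_lc.HammingDense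

/-- The class `EDA`: every product of idempotents of `M` which is a regular element is
idempotent. -/
def IsEDA (M : Type) [Monoid M] : Prop :=
  ∀ x ∈ Submonoid.closure {e : M | e * e = e}, (∃ z : M, x * z * x = x) → x * x = x

/-- All subgroups of `M` are trivial. -/
def IsAperiodic (M : Type) [Monoid M] : Prop := ∀ x : M, ∃ k : ℕ, x ^ (k + 1) = x ^ k

section programs

variable {M S : Type} [Monoid M] {n : ℕ}

/-- A read-once program of length `n` over the monoid `M` with input alphabet `S` is given by its
letters `c i σ` (`i < n`, `σ ∈ S`); its value on the string `x` is the product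
`c 0 (x 0) * c 1 (x 1) * ⋯ * c (n - 1) (x (n - 1))`. -/
def value (c : Fin n → S → M) (x : Fin n → S) : M := (List.ofFn fun i => c i (x i)).prod

/-- The probability of the event `P` for a uniformly random string of length `n`. -/
noncomputable def prob [Fintype S] (P : (Fin n → S) → Prop) : ℝ :=
  (Nat.card {x : Fin n → S // P x} : ℝ) / (Fintype.card S : ℝ) ^ n

/-- The Hamming distance. -/
noncomputable def distance (x y : Fin n → S) : ℕ := Nat.card {i : Fin n // x i ≠ y i}

end programs

/-- Every program over `M` with input alphabet `S` and acceptance probability at least `ε` accepts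
a string within distance `d` of every string (whatever the length of the program). -/
def DenseAcceptance (M S : Type) [Monoid M] [Fintype S] (ε : ℝ) (d : ℕ) : Prop :=
  ∀ (n : ℕ) (c : Fin n → S → M) (F : Set M), ε ≤ prob (fun x => value c x ∈ F) →
    ∀ u : Fin n → S, ∃ x : Fin n → S, value c x ∈ F ∧ distance x u ≤ d

section lemmas

open Helper68.DS Helper68.EDA

lemma distance_le {S : Type} {n : ℕ} (w u : ℕ → S) :
    distance (fun i : Fin n => w i) (fun i : Fin n => u i) ≤ hdI w u 0 n := by
  classical
  unfold distance hdI
  rw [Nat.card_eq_fintype_card, Fintype.card_subtype]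
  apply Finset.card_le_card_of_injOn (fun i : Fin n => (i : ℕ))
  · intro i hi
    have h1 := (Finset.mem_filter.1 hi).2
    exact Finset.mem_filter.2 ⟨Finset.mem_Ico.2 ⟨Nat.zero_le _, i.2⟩, h1⟩
  · intro i _ j _ h
    exact Fin.ext h

/-- The number of positions where `x` is `true`. -/
lemma le_distance {n : ℕ} (x : Fin n → Bool) {k : ℕ} (p : Fin k → ℕ)
    (hinj : Function.Injective p) (hlt : ∀ j, p j < n) (hp : ∀ j, lft x (p j) = true) :
    k ≤ distance x (fun _ => false) := by
  unfold distance
  have h1 : Nat.card (Fin k) ≤ Nat.card {i : Fin n // x i ≠ false} := by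
    apply Nat.card_le_card_of_injective (fun j => (⟨⟨p j, hlt j⟩, ?_⟩ : {i : Fin n // x i ≠ false}))
    · intro j j' h
      exact hinj (congrArg (fun i : {i : Fin n // x i ≠ false} => (i.1 : ℕ)) h)
    · have h2 := lft_apply x ⟨p j, hlt j⟩
      have h3 := hp j
      rw [← h2]
      change lft x (p j) ≠ false
      rw [h3]
      simp
  rwa [Nat.card_fin] at h1

lemma value_neg {M : Type} [Monoid M] (e f g : M) (w : ℕ) (brk : Bool) {n : ℕ}
    (x : Fin n → Bool) : value (fun (i : Fin n) b => neg e f g w brk i b) x =
      seg (neg e f g w brk) (lft x) 0 n := by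
  change Helper68.DS.value (fun (i : Fin n) b => neg e f g w brk i b) x = _
  rw [value_lft]
  apply seg_congr_c
  intro i _ hi
  rw [clft, dif_pos hi]

end lemmas

/-- **Theorem.** Let `M` be a finite monoid. If `M` is in `EDA`, then for every finite alphabet and
every `ε > 0` there is a distance `d` such that the strings accepted by a program over `M` with
acceptance probability at least `ε` are within distance `d` of all strings. If `M` is not in `EDA`,
then for every `w ≥ 1` some program of length `n = 2 ^ w * w` with acceptance probability at least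
`1 / 4` accepts only strings with at least `w` ones, and, if `M` is aperiodic, some program of
length `n` with acceptance probability at least `1 / 4` accepts only strings with at least
`2 ^ w = n / w` ones. -/
theorem result (M : Type) [Monoid M] [Finite M] :
    (IsEDA M → ∀ (S : Type) [Fintype S] [Nonempty S] (ε : ℝ), 0 < ε →
      ∃ d : ℕ, DenseAcceptance M S ε d) ∧
    (¬ IsEDA M → ∀ w : ℕ, 1 ≤ w → ∃ (c : Fin (2 ^ w * w) → Bool → M) (F : Set M),
      1 / 4 ≤ prob (fun x => value c x ∈ F) ∧
      ∀ x, value c x ∈ F → w ≤ distance x (fun _ => false)) ∧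
    (¬ IsEDA M → IsAperiodic M → ∀ w : ℕ, 1 ≤ w →
      ∃ (c : Fin (2 ^ w * w) → Bool → M) (F : Set M),
        1 / 4 ≤ prob (fun x => value c x ∈ F) ∧
        ∀ x, value c x ∈ F → 2 ^ w ≤ distance x (fun _ => false)) := by
  classical
  open Helper68.DS Helper68.EDA in
  refine ⟨?_, ?_, ?_⟩
  · intro hE S _ _ ε hε
    have : Fintype M := Fintype.ofFinite M
    have hM : (0 : ℝ) < Fintype.card M := by exact_mod_cast Fintype.card_pos (α := M)
    have hE' : Helper68.EDA.IsEDA M := hE
    obtain ⟨d, hd⟩ := near_main (S := S) hE' (ε / Fintype.card M) (by positivity)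
    refine ⟨d, ?_⟩
    intro n c F hprob u
    -- a value of large probability
    obtain ⟨m, hmF, hm⟩ : ∃ m ∈ F, ε / Fintype.card M ≤
        Helper68.DS.prob (fun x : Fin n → S => seg (clft c) (lft x) 0 n = m) := by
      by_contra hcon
      push Not at hcon
      have h1 : prob (fun x : Fin n → S => value c x ∈ F) ≤ Helper68.DS.prob
          (fun x : Fin n → S => ∃ m ∈ (Finset.univ : Finset M), m ∈ F ∧
            seg (clft c) (lft x) 0 n = m) := by
        change Helper68.DS.prob (fun x : Fin n → S => value c x ∈ F) ≤ _
        apply prob_mono
        intro x hx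
        exact ⟨value c x, Finset.mem_univ _, hx, (value_lft c x).symm⟩
      have h2 := prob_union (Finset.univ : Finset M) (fun m (x : Fin n → S) => m ∈ F ∧
            seg (clft c) (lft x) 0 n = m)
      have h3 : ∀ m ∈ (Finset.univ : Finset M), Helper68.DS.prob (fun x : Fin n → S => m ∈ F ∧
            seg (clft c) (lft x) 0 n = m) < ε / Fintype.card M := by
        intro m _
        by_cases hmF : m ∈ F
        · exact lt_of_le_of_lt (prob_mono fun x hx => hx.2) (hcon m hmF)
        · have h4 : Helper68.DS.prob (fun x : Fin n → S => m ∈ F ∧
              seg (clft c) (lft x) 0 n = m) ≤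
              Helper68.DS.prob (fun _ : Fin n → S => False) := prob_mono fun x hx => hmF hx.1
          rw [prob_false] at h4
          exact lt_of_le_of_lt h4 (by positivity)
      have h4 := Finset.sum_lt_sum_of_nonempty ⟨1, Finset.mem_univ (1 : M)⟩ h3
      rw [Finset.sum_const, Finset.card_univ, nsmul_eq_mul] at h4
      have h5 : (Fintype.card M : ℝ) * (ε / Fintype.card M) = ε := by field_simp
      linarith
    obtain ⟨w, hw1, hw2⟩ := hd n (clft c) (lft u) m hm
    refine ⟨fun i => w i, ?_, ?_⟩
    · have h1 : value c (fun i => w i) = seg (clft c) w 0 n := value_eq c w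
      rw [h1, hw1]
      exact hmF
    · have h1 : u = fun i : Fin n => lft u i := by
        funext i
        exact (lft_apply u i).symm
      calc distance (fun i : Fin n => w i) u
          = distance (fun i : Fin n => w i) (fun i : Fin n => lft u i) := by rw [← h1]
        _ ≤ hdI w (lft u) 0 n := distance_le w (lft u)
        _ ≤ d := hw2
  · intro hE w hw
    have hnP : ¬ Pat M := fun h => hE h.eda
    unfold Pat at hnP
    push Not at hnP
    obtain ⟨e, g, f, he, hg, hf, h1, h2, h3, h4, h5⟩ := hnP
    refine ⟨fun i b => neg e f g w false i b, {m | m ≠ e}, ?_, ?_⟩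
    · refine (prob_single w hw).trans (prob_mono ?_)
      rintro x ⟨p, hp, hp1, hp2⟩
      change value _ x ≠ e
      rw [value_neg, (one_all he h1 h4 hw hp1 (2 ^ w) hp2).2 hp]
      exact h5
    · intro x hx
      change value _ x ≠ e at hx
      rw [value_neg] at hx
      obtain ⟨p, hp, hp1⟩ : ∃ p < 2 ^ w, ¬ ∃ k < w, lft x (p * w + k) = false := by
        by_contra hcon
        push Not at hcon
        exact hx (no_all he h1 h4 hw (2 ^ w) hcon Nat.one_le_two_pow)
      push Not at hp1
      refine le_distance x (fun k : Fin w => p * w + k) ?_ ?_ ?_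
      · intro k k' h
        exact Fin.ext (Nat.add_left_cancel h)
      · intro k
        calc p * w + k < p * w + w := Nat.add_lt_add_left k.2 _
          _ = (p + 1) * w := by ring
          _ ≤ 2 ^ w * w := Nat.mul_le_mul_right _ hp
      · intro k
        have := hp1 k k.2
        simpa using this
  · intro hE hap w hw
    have hnP : ¬ Pat M := fun h => hE h.eda
    unfold Pat at hnP
    push Not at hnP
    obtain ⟨e, g, f, he, hg, hf, h1, h2, h3, h4, h5⟩ := hnP
    refine ⟨fun i b => neg e f g w true i b, {e}, ?_, ?_⟩
    · refine (prob_none w hw).trans (prob_mono ?_)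
      intro x hx
      change value _ x = e
      rw [value_neg]
      exact no_all he h1 h4 hw (2 ^ w) hx Nat.one_le_two_pow
    · intro x hx
      change value _ x = e at hx
      rw [value_neg] at hx
      have hall : ∀ j : Fin (2 ^ w), ∃ k < w, lft x (j * w + k) = true := by
        intro j
        by_contra hcon
        apply h5
        apply aper_eq hap he
        have h6 := some_all he h1 h4 hw hcon j.2
        rwa [hx] at h6
      choose k hk1 hk2 using hall
      refine le_distance x (fun j : Fin (2 ^ w) => j * w + k j) ?_ ?_ hk2
      · intro j j' h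
        have hlt : ∀ a b : Fin (2 ^ w), a < b → (a : ℕ) * w + k a < b * w + k b := by
          intro a b hab
          calc (a : ℕ) * w + k a < a * w + w := Nat.add_lt_add_left (hk1 a) _
            _ = (a + 1) * w := by ring
            _ ≤ b * w := Nat.mul_le_mul_right _ hab
            _ ≤ b * w + k b := Nat.le_add_right _ _
        rcases lt_trichotomy j j' with h' | h' | h'
        · exact absurd h (hlt j j' h').ne
        · exact h'
        · exact absurd h.symm (hlt j' j h').ne
      · intro j
        calc (j : ℕ) * w + k j < j * w + w := Nat.add_lt_add_left (hk1 j) _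
          _ = (j + 1) * w := by ring
          _ ≤ 2 ^ w * w := Nat.mul_le_mul_right _ j.2

end Pool.Agent.Results.MP_92893d_lc.HammingDense
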