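import Mathlib
import Pool.Agent.Helper53.RW.Joint

/-!
# Windows behind two squares on which a completely multiplicative function is constant
-/

set_option autoImplicit false

namespace Pool.Agent.Results.MP_36c81c_nt.RepellingWindows

/-- For every `κ > 0` there are `c > 0` and `n0` such that for all integers `n0 ≤ n < n' ≤ n + c √n`,
every abelian group `G` (written multiplicatively) and every completely multiplicative function `f`
from the positive integers to `G`: if `f` takes only one value on the integers `m` with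
`n ^ 2 < m ≤ n ^ 2 + κ n` and only one value on the integers `m` with
`n' ^ 2 < m ≤ n' ^ 2 + κ n'`, then `f k = 1` for all positive integers
`k ≤ c max (n ^ (1 / 4), min (n ^ (1 / 2), n / (n' - n) ^ 2))`. -/
theorem result (κ : ℝ) (hκ : 0 < κ) : ∃ c : ℝ, 0 < c ∧ ∃ n0 : ℕ, ∀ n n' : ℕ, n0 ≤ n → n < n' →
    (n' : ℝ) ≤ n + c * (n : ℝ) ^ (1 / 2 : ℝ) →
    ∀ (G : Type*) [CommGroup G] (f : ℕ → G),
      (∀ a b : ℕ, a ≠ 0 → b ≠ 0 → f (a * b) = f a * f b) →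
      (∀ m m' : ℕ, (n : ℝ) ^ 2 < m → (m : ℝ) ≤ (n : ℝ) ^ 2 + κ * n → (n : ℝ) ^ 2 < m' →
        (m' : ℝ) ≤ (n : ℝ) ^ 2 + κ * n → f m = f m') →
      (∀ m m' : ℕ, (n' : ℝ) ^ 2 < m → (m : ℝ) ≤ (n' : ℝ) ^ 2 + κ * n' → (n' : ℝ) ^ 2 < m' →
        (m' : ℝ) ≤ (n' : ℝ) ^ 2 + κ * n' → f m = f m') →
      ∀ k : ℕ, k ≠ 0 → (k : ℝ) ≤ c * max ((n : ℝ) ^ (1 / 4 : ℝ))
        (min ((n : ℝ) ^ (1 / 2 : ℝ)) (n / ((n' : ℝ) - n) ^ 2)) → f k = 1 := by
  obtain ⟨c, hc, n0, h⟩ := Pool.Agent.Helper53.RW.joint κ hκ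
  refine ⟨c, hc, n0, fun n n' hn hnn hup G _ f hf hw hw' k hk hkx =>
    h n n' hn hnn ?_ G f hf hw hw' k hk ?_⟩
  · rwa [Real.sqrt_eq_rpow]
  · rwa [Real.sqrt_eq_rpow (Real.sqrt n), Real.sqrt_eq_rpow n,
      ← Real.rpow_mul (Nat.cast_nonneg n), show (1 / 2 : ℝ) * (1 / 2) = 1 / 4 by norm_num]

end Pool.Agent.Results.MP_36c81c_nt.RepellingWindows
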